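import Pool.Agent.H81.FI.Main

/-!
# `F`-irregular oriented graphs of every large order

For every weakly connected oriented graph `F` with at least three vertices and every `K`, all large
`n` have the property that there are `K` pairwise non-isomorphic `F`-irregular oriented graphs with
exactly `n` vertices.
-/

set_option autoImplicit false

namespace Pool.Agent.Results.MP_5b35db_co.AllLargeOrders

universe u v

/-- An oriented graph with vertex set `V`: a set of arcs that contains no two opposite arcs, so
there are no loops either. -/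
structure OGraph (V : Type u) where
  Arc : V → V → Prop
  asymm : ∀ x y, Arc x y → ¬ Arc y x

/-- The underlying undirected graph. -/
def OGraph.underlying {V : Type u} (G : OGraph V) : SimpleGraph V where
  Adj x y := G.Arc x y ∨ G.Arc y x
  symm := ⟨fun _ _ h => Or.symm h⟩
  loopless := ⟨fun x h => by
    rcases h with h | h <;> exact G.asymm x x h h⟩

/-- `G` is weakly connected: the underlying undirected graph is connected. -/
def OGraph.WeaklyConnected {V : Type u} (G : OGraph V) : Prop := G.underlying.Connected

/-- Two oriented graphs are isomorphic. -/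
def Iso {V : Type u} {W : Type v} (G : OGraph V) (H : OGraph W) : Prop :=
  ∃ e : V ≃ W, ∀ x y, G.Arc x y ↔ H.Arc (e x) (e y)

/-- A subgraph of `G`, not necessarily induced: a set of vertices and a set of arcs of `G` among
them. -/
@[ext] structure Subgraph {V : Type u} (G : OGraph V) where
  verts : Set V
  arcs : Set (V × V)
  arc : ∀ e ∈ arcs, G.Arc e.1 e.2 ∧ e.1 ∈ verts ∧ e.2 ∈ verts

/-- A subgraph as an oriented graph on its own set of vertices. -/
def Subgraph.toGraph {V : Type u} {G : OGraph V} (H : Subgraph G) : OGraph H.verts where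
  Arc x y := ((x : V), (y : V)) ∈ H.arcs
  asymm x y h h' := G.asymm x y (H.arc _ h).1 (H.arc _ h').1

/-- The `F`-degree of the vertex `v` of `G`: the number of the subgraphs of `G` that contain `v` and
are isomorphic to `F`. -/
noncomputable def deg {X : Type v} {V : Type u} (F : OGraph X) (G : OGraph V) (v : V) : ℕ :=
  Nat.card {H : Subgraph G // v ∈ H.verts ∧ Iso F H.toGraph}

/-- `G` is `F`-irregular: different vertices have different `F`-degrees. -/
def Irregular {X : Type v} {V : Type u} (F : OGraph X) (G : OGraph V) : Prop :=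
  ∀ x y, x ≠ y → deg F G x ≠ deg F G y

/-! ### The same notions in the library -/

open Pool.Agent.K7.H15.Irr in
/-- the oriented graph in the language of the library -/
def OGraph.lib {V : Type u} (G : OGraph V) : OrientedGraph V := ⟨G.Arc, G.asymm⟩

open Pool.Agent.K7.H15.Irr in
theorem fdeg_lib {X : Type v} {V : Type u} (F : OGraph X) (G : OGraph V) (v : V) :
    fdeg F.lib G.lib v = deg F G v := by
  refine Nat.card_congr
    { toFun := fun H => ⟨⟨H.1.verts, H.1.arcs, H.1.arc⟩, H.2.1, ?_⟩
      invFun := fun H => ⟨⟨H.1.verts, H.1.arcs, H.1.arc⟩, H.2.1, ?_⟩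
      left_inv := fun H => rfl
      right_inv := fun H => rfl }
  · exact H.2.2
  · exact H.2.2

/-- For every weakly connected oriented graph `F` with at least three vertices and every `K` there is
`n₀` such that for every `n ≥ n₀` there are `K` pairwise non-isomorphic `F`-irregular oriented graphs
with exactly `n` vertices. -/
theorem result {X : Type u} [Fintype X] (F : OGraph X) (hF : F.WeaklyConnected)
    (h3 : 3 ≤ Fintype.card X) (K : ℕ) :
    ∃ n₀ : ℕ, ∀ n, n₀ ≤ n → ∃ G : Fin K → OGraph (Fin n), (∀ i, Irregular F (G i)) ∧
      ∀ i j, i ≠ j → ¬ Iso (G i) (G j) := by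
  obtain ⟨n₀, h0⟩ := Pool.Agent.H81.FI.main F.lib hF h3 K
  refine ⟨n₀, fun n hn => ?_⟩
  obtain ⟨G, hG1, hG2⟩ := h0 n hn
  refine ⟨fun i => ⟨(G i).Arc, (G i).asymm⟩, fun i x y hxy => ?_, hG2⟩
  have h := hG1 i x y hxy
  rw [← fdeg_lib, ← fdeg_lib]
  exact h

end Pool.Agent.Results.MP_5b35db_co.AllLargeOrders
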